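import Mathlib

/-!
# An explicit finite equational basis of the variety generated by the algebra `C₃ˢ`
-/

set_option autoImplicit false

namespace Pool.Agent.Results.MP_7f507d_al.FiniteBasis

universe u

/-! ### Algebras, terms and identities of type `(2, 1, 0)` -/

/-- An algebra of type `(2, 1, 0)` on the set `M`. -/
structure Alg (M : Type u) where
  /-- the binary operation -/
  mul : M → M → M
  /-- the unary operation -/
  neg : M → M
  /-- the constant -/
  one : M

/-- The terms in the variables `var 0, var 1, …`. -/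
inductive Term
  | var (i : ℕ)
  | one
  | mul (s t : Term)
  | neg (t : Term)

/-- The value of a term. -/
def Term.eval {M : Type u} (A : Alg M) (v : ℕ → M) : Term → M
  | .var i => v i
  | .one => A.one
  | .mul s t => A.mul (s.eval A v) (t.eval A v)
  | .neg t => A.neg (t.eval A v)

/-- The algebra `A` satisfies the identity `p.1 ≈ p.2`. -/
def Sat {M : Type u} (A : Alg M) (p : Term × Term) : Prop :=
  ∀ v : ℕ → M, p.1.eval A v = p.2.eval A v

/-- The three elements of `C₃ˢ`: `1`, `c` and `¬ c`. -/
inductive C3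
  | one
  | c
  | nc

/-- The algebra `C₃ˢ`: a chain `¬ c < c < 1` under the product, and `¬` fixes `1` and swaps
`c` and `¬ c`. -/
def C3s : Alg C3 where
  mul a b := match a, b with
    | .one, b => b
    | a, .one => a
    | .c, .c => .c
    | _, _ => .nc
  neg a := match a with
    | .one => .one
    | .c => .nc
    | .nc => .c
  one := .one

/-! ### The basis -/

open Term

/-- `⊥_t = t · ¬t` -/
def bot (t : Term) : Term := mul t (neg t)
/-- `⊤_t = ¬(t · ¬t)` -/
def top (t : Term) : Term := neg (bot t)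
/-- `s + t = ¬(¬s · ¬t)` -/
def join (s t : Term) : Term := neg (mul (neg s) (neg t))
/-- The variable `x`. -/
def x : Term := var 0
/-- The variable `y`. -/
def y : Term := var 1
/-- The variable `z`. -/
def z : Term := var 2
/-- `u = ⊤_{xyz}` -/
def u : Term := top (mul x (mul y z))
/-- `w = ⊤_{xy}` -/
def w : Term := top (mul x y)

/-- The ten identities of the basis. -/
def basis : List (Term × Term) :=
  [(mul x (mul y z), mul (mul x y) z),
   (mul x y, mul y x),
   (mul x x, x),
   (mul x one, x),
   (neg (neg x), x),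
   (neg one, one),
   (bot (mul x y), mul (bot x) (bot y)),
   (mul x (top x), x),
   (mul (mul x u) (join (mul y u) (mul z u)),
     join (mul (mul x u) (mul y u)) (mul (mul x u) (mul z u))),
   (neg (mul (neg x) w), mul (mul x w) (neg (mul (bot x) w)))]

/-! ### The algebras satisfying the basis -/

/-- The algebras satisfying the basis, written multiplicatively. -/
class IB (M : Type u) extends CommMonoid M where
  /-- the unary operation -/
  ng : M → M
  idem : ∀ a : M, a * a = a
  ng_ng : ∀ a : M, ng (ng a) = a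
  ng_one : ng 1 = 1
  bot_mul : ∀ a b : M, (a * b) * ng (a * b) = (a * ng a) * (b * ng b)
  mul_top : ∀ a : M, a * ng (a * ng a) = a
  distr : ∀ a b c : M, (a * ng ((a * (b * c)) * ng (a * (b * c)))) *
      ng (ng (b * ng ((a * (b * c)) * ng (a * (b * c)))) *
        ng (c * ng ((a * (b * c)) * ng (a * (b * c))))) =
      ng (ng ((a * ng ((a * (b * c)) * ng (a * (b * c)))) *
          (b * ng ((a * (b * c)) * ng (a * (b * c))))) *
        ng ((a * ng ((a * (b * c)) * ng (a * (b * c)))) *
          (c * ng ((a * (b * c)) * ng (a * (b * c))))))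
  ext_law : ∀ a b : M, ng (ng a * ng ((a * b) * ng (a * b))) =
      (a * ng ((a * b) * ng (a * b))) * ng ((a * ng a) * ng ((a * b) * ng (a * b)))

namespace IB

variable {M : Type u} [IB M]

theorem mul_self_left (a b : M) : a * (a * b) = a * b := by rw [← mul_assoc, idem]

theorem bot_ng (a : M) : ng a * ng (ng a) = a * ng a := by rw [ng_ng, mul_comm]

theorem bot_bot (a : M) : (a * ng a) * ng (a * ng a) = a * ng a := by
  rw [bot_mul, bot_ng, idem]

theorem bot_top (a : M) : ng (a * ng a) * ng (ng (a * ng a)) = a * ng a := by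
  rw [bot_ng, bot_bot]

section fibre

variable {e : M} (he : e * ng e = e)

/-- The fibre over `e`. -/
@[ext] structure Fib (e : M) where
  /-- the element -/
  val : M
  prop : val * ng val = e

theorem Fib.ext' {p q : Fib e} (h : p.1 = q.1) : p = q := Fib.ext h

theorem fib_mul_e {p : M} (hp : p * ng p = e) : p * e = e := by
  rw [← hp, ← mul_assoc, idem]

theorem fib_mul_top {p : M} (hp : p * ng p = e) : p * ng e = p := by
  rw [← hp]; exact mul_top p

theorem fib_ng {p : M} (hp : p * ng p = e) : ng p * ng (ng p) = e := by rw [bot_ng, hp]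

theorem fib_mul {p q : M} (hp : p * ng p = e) (hq : q * ng q = e) : (p * q) * ng (p * q) = e := by
  rw [bot_mul, hp, hq, idem]

theorem fib_distr {p q r : M} (hp : p * ng p = e) (hq : q * ng q = e) (hr : r * ng r = e) :
    p * ng (ng q * ng r) = ng (ng (p * q) * ng (p * r)) := by
  have h := distr p q r
  rw [fib_mul hp (fib_mul hq hr), fib_mul_top hp, fib_mul_top hq, fib_mul_top hr] at h
  exact h

instance : Min (Fib e) := ⟨fun p q => Fib.mk (p.1 * q.1) (fib_mul p.2 q.2)⟩
instance : Max (Fib e) := ⟨fun p q => Fib.mk (ng (ng p.1 * ng q.1))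
  (fib_ng (fib_mul (fib_ng p.2) (fib_ng q.2)))⟩

theorem inf_val (p q : Fib e) : (p ⊓ q).1 = p.1 * q.1 := rfl
theorem sup_val (p q : Fib e) : (p ⊔ q).1 = ng (ng p.1 * ng q.1) := rfl

theorem absorb {p q : M} (hp : p * ng p = e) (hq : q * ng q = e) :
    ng (ng p * ng (p * q)) = p := by
  have he : ng e * ng (ng e) = e := by
    rw [← hp]; exact bot_top p
  have h := fib_distr hp he hq
  rw [fib_mul_top hp] at h
  rw [← h, ng_ng, mul_comm e (ng q), fib_mul_e (fib_ng hq), fib_mul_top hp]

/-- The lattice structure of a fibre. -/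
@[reducible] def lat (e : M) : Lattice (Fib e) := Lattice.mk'
  (fun a b => Fib.ext' (by rw [sup_val, sup_val, mul_comm]))
  (fun a b c => Fib.ext' (by rw [sup_val, sup_val, sup_val, sup_val, ng_ng, ng_ng, mul_assoc]))
  (fun a b => Fib.ext' (mul_comm _ _))
  (fun a b c => Fib.ext' (mul_assoc _ _ _))
  (fun a b => Fib.ext' (by
    rw [sup_val, inf_val]; exact absorb a.2 b.2))
  (fun a b => Fib.ext' (by
    rw [inf_val, sup_val]
    have h := absorb (fib_ng a.2) (fib_ng b.2)
    rw [ng_ng] at h
    have h2 := congrArg ng h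
    rw [ng_ng, ng_ng] at h2
    exact h2))

instance : DistribLattice (Fib e) := @DistribLattice.ofInfSupLe _ (lat e) fun a b c => by
  letI := lat e
  have : a ⊓ (b ⊔ c) = a ⊓ b ⊔ a ⊓ c := Fib.ext' (by
    change a.1 * ng (ng b.1 * ng c.1) = ng (ng (a.1 * b.1) * ng (a.1 * c.1))
    exact fib_distr a.2 b.2 c.2)
  exact this.le

theorem le_iff (p q : Fib e) : p ≤ q ↔ p.1 * q.1 = p.1 := by
  rw [← inf_eq_left]
  exact ⟨fun h => congrArg Fib.val h, fun h => Fib.ext' h⟩

/-- Two different elements of a fibre are separated by a homomorphism to the two-element Boolean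
algebra. -/
theorem exists_hom (he : e * ng e = e) {m n : M} (hm : m * ng m = e) (hn : n * ng n = e)
    (hmn : m ≠ n) :
    ∃ χ : M → Prop, (∀ p q, p * ng p = e → q * ng q = e → (χ (p * q) ↔ χ p ∧ χ q)) ∧
      (∀ p, p * ng p = e → (χ (ng p) ↔ ¬ χ p)) ∧ ¬ (χ m ↔ χ n) := by
  classical
  -- the one-sided version
  have key : ∀ m n : M, m * ng m = e → n * ng n = e → m * n ≠ m →
      ∃ χ : M → Prop, (∀ p q, p * ng p = e → q * ng q = e → (χ (p * q) ↔ χ p ∧ χ q)) ∧
      (∀ p, p * ng p = e → (χ (ng p) ↔ ¬ χ p)) ∧ ¬ (χ m ↔ χ n) := by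
    intro m n hm hn hmn
    let a : Fib e := Fib.mk m hm
    let b : Fib e := Fib.mk n hn
    have hab : ¬ a ≤ b := fun h => hmn ((le_iff a b).1 h)
    have hdis : Disjoint ((Order.PFilter.principal a : Order.PFilter (Fib e)) : Set (Fib e))
        (Order.Ideal.principal b : Set (Fib e)) := by
      rw [Set.disjoint_left]
      intro c hc hc'
      exact hab (le_trans (Order.PFilter.mem_principal.1 hc) (Order.Ideal.mem_principal.1 hc'))
    obtain ⟨J, hJ, hbJ, hdisJ⟩ := DistribLattice.prime_ideal_of_disjoint_filter_ideal hdis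
    have haJ : a ∉ J := by
      intro h
      exact (Set.disjoint_left.1 hdisJ) (Order.PFilter.mem_principal.2 le_rfl) h
    have hbJ' : b ∈ J := hbJ (Order.Ideal.mem_principal.2 le_rfl)
    have hbotJ : Fib.mk e he ∈ J := by
      apply J.lower _ hbJ'
      rw [le_iff]
      change e * n = e
      rw [mul_comm, fib_mul_e hn]
    have htopJ : ∀ p : Fib e, ¬ (p ∈ J ∧ Fib.mk (ng p.1) (fib_ng p.2) ∈ J) := by
      rintro p ⟨h1, h2⟩
      apply haJ
      have h3 := Order.Ideal.sup_mem h1 h2
      apply J.lower _ h3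
      rw [le_iff]
      change m * ng (ng p.1 * ng (ng p.1)) = m
      rw [fib_ng p.2, fib_mul_top hm]
    refine ⟨fun p => ∃ h : p * ng p = e, Fib.mk p h ∉ J, ?_, ?_, ?_⟩
    · intro p q hp hq
      constructor
      · rintro ⟨h1, h2⟩
        refine ⟨⟨hp, fun h => h2 (J.lower ?_ h)⟩, ⟨hq, fun h => h2 (J.lower ?_ h)⟩⟩
        · rw [le_iff]
          change p * q * p = p * q
          rw [mul_comm p q, mul_assoc, idem]
        · rw [le_iff]
          change p * q * q = p * q
          rw [mul_assoc, idem]
      · rintro ⟨⟨h1, h2⟩, ⟨h3, h4⟩⟩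
        refine ⟨fib_mul hp hq, fun h => ?_⟩
        have h5 : Fib.mk p h1 ⊓ Fib.mk q h3 ∈ J := h
        rcases hJ.mem_or_mem h5 with h6 | h6
        · exact h2 h6
        · exact h4 h6
    · intro p hp
      constructor
      · rintro ⟨h1, h2⟩ ⟨h3, h4⟩
        have h5 : Fib.mk p hp ⊓ Fib.mk (ng p) h1 ∈ J := by
          have : Fib.mk p hp ⊓ Fib.mk (ng p) h1 = Fib.mk e he := Fib.ext' (by change p * ng p = e; exact hp)
          rw [this]; exact hbotJ
        rcases hJ.mem_or_mem h5 with h6 | h6
        · exact h4 h6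
        · exact h2 h6
      · intro h
        refine ⟨fib_ng hp, fun h2 => htopJ (Fib.mk p hp) ⟨?_, h2⟩⟩
        by_contra h3
        exact h ⟨hp, h3⟩
    · intro h
      obtain ⟨h1, h2⟩ := h.1 ⟨hm, haJ⟩
      exact h2 hbJ'
  by_cases h : m * n = m
  · have h' : n * m ≠ n := by
      intro h'
      rw [mul_comm] at h'
      exact hmn (h.symm.trans h')
    obtain ⟨χ, h1, h2, h3⟩ := key n m hn hm h'
    exact ⟨χ, h1, h2, fun h => h3 h.symm⟩
  · exact key m n hm hn h

end fibre

/-! ### The homomorphism to `C₃ˢ` attached to `χ` -/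

section Phi

variable {e : M} (χ : M → Prop)

open Classical in
/-- The map to `C₃ˢ` attached to `χ`. -/
noncomputable def Phi (e : M) (m : M) : C3 :=
  if χ ((m * ng m) * ng e) then .one else if χ (m * ng e) then .c else .nc

theorem low_mul {m n : M} (hm : (m * ng m) * e = e) (hn : (n * ng n) * e = e) :
    ((m * n) * ng (m * n)) * e = e := by rw [bot_mul, mul_assoc, hn, hm]

theorem low_ng {m : M} (hm : (m * ng m) * e = e) : (ng m * ng (ng m)) * e = e := by
  rw [bot_ng, hm]

theorem low_bot {m : M} (hm : (m * ng m) * e = e) :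
    ((m * ng m) * ng (m * ng m)) * e = e := by rw [bot_bot, hm]

theorem low_fib (he : e * ng e = e) {m : M} (hm : (m * ng m) * e = e) :
    (m * ng e) * ng (m * ng e) = e := by
  rw [bot_mul, bot_ng, he, hm]

variable (he : e * ng e = e)
  (h1 : ∀ p q, p * ng p = e → q * ng q = e → (χ (p * q) ↔ χ p ∧ χ q))
  (h2 : ∀ p, p * ng p = e → (χ (ng p) ↔ ¬ χ p))

include he h1 in
theorem delta_alpha {m : M} (hm : (m * ng m) * e = e) (h : χ ((m * ng m) * ng e)) :
    χ (m * ng e) := by
  have h3 := h1 ((m * ng m) * ng e) (m * ng e) (low_fib he (low_bot hm)) (low_fib he hm)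
  have h4 : (m * ng m) * ng e * (m * ng e) = (m * ng m) * ng e := by
    have : (m * ng m) * ng e * (m * ng e) = (m * m) * ng m * (ng e * ng e) := by ac_rfl
    rw [this, idem, idem]
  rw [h4] at h3
  exact (h3.1 h).2

include he h1 h2 in
theorem alpha_ng {m : M} (hm : (m * ng m) * e = e) :
    χ (ng m * ng e) ↔ ¬ (χ (m * ng e) ∧ ¬ χ ((m * ng m) * ng e)) := by
  have h3 : (m * e) * ng (m * e) = e := by rw [bot_mul, he, hm]
  have h4 := ext_law m e
  rw [h3] at h4
  have h5 := h2 (ng m * ng e) (low_fib he (low_ng hm))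
  rw [h4, h1 _ _ (low_fib he hm) (fib_ng (low_fib he (low_bot hm))),
    h2 _ (low_fib he (low_bot hm))] at h5
  tauto

include he h1 in
theorem Phi_mul {m n : M} (hm : (m * ng m) * e = e) (hn : (n * ng n) * e = e) :
    Phi χ e (m * n) = C3s.mul (Phi χ e m) (Phi χ e n) := by
  have a1 : (m * n) * ng e = (m * ng e) * (n * ng e) := by
    have : (m * ng e) * (n * ng e) = (m * n) * (ng e * ng e) := by ac_rfl
    rw [this, idem]
  have a2 : ((m * n) * ng (m * n)) * ng e = ((m * ng m) * ng e) * ((n * ng n) * ng e) := by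
    have : ((m * ng m) * ng e) * ((n * ng n) * ng e) =
      ((m * ng m) * (n * ng n)) * (ng e * ng e) := by ac_rfl
    rw [this, idem, bot_mul]
  have b1 := h1 _ _ (low_fib he hm) (low_fib he hn)
  have b2 := h1 _ _ (low_fib he (low_bot hm)) (low_fib he (low_bot hn))
  rw [← a1] at b1
  rw [← a2] at b2
  have c1 := delta_alpha χ he h1 hm
  have c2 := delta_alpha χ he h1 hn
  unfold Phi
  by_cases d1 : χ ((m * ng m) * ng e) <;> by_cases d2 : χ ((n * ng n) * ng e) <;>
    by_cases d3 : χ (m * ng e) <;> by_cases d4 : χ (n * ng e) <;>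
    simp_all [C3s]

include he h1 h2 in
theorem Phi_ng {m : M} (hm : (m * ng m) * e = e) :
    Phi χ e (ng m) = C3s.neg (Phi χ e m) := by
  have a1 := alpha_ng χ he h1 h2 hm
  have a2 := delta_alpha χ he h1 hm
  unfold Phi
  rw [bot_ng]
  by_cases d1 : χ ((m * ng m) * ng e) <;> by_cases d3 : χ (m * ng e) <;>
    simp_all [C3s]

include he h1 h2 in
theorem not_chi_e : ¬ χ e := by
  intro h
  have h3 : χ (e * ng e) := by rw [he]; exact h
  have h4 := (h1 _ _ he (fib_ng he)).1 h3
  exact (h2 _ he).1 h4.2 h4.1

include he h1 h2 in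
theorem Phi_one : Phi χ e (1 : M) = C3.one := by
  have h3 : χ (ng e) := (h2 _ he).2 (not_chi_e χ he h1 h2)
  have h4 : χ (((1 : M) * ng 1) * ng e) := by rw [ng_one, one_mul, one_mul]; exact h3
  unfold Phi
  rw [if_pos h4]

include he h1 h2 in
theorem Phi_fib {m : M} (hm : m * ng m = e) : Phi χ e m = C3.c ↔ χ m := by
  unfold Phi
  rw [hm, he, fib_mul_top hm, if_neg (not_chi_e χ he h1 h2)]
  by_cases h : χ m <;> simp [h]

end Phi

end IB

/-! ### Occurrences of variables -/

/-- The variable `var i` occurs in the term. -/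
def Occ (i : ℕ) : Term → Prop
  | .var j => j = i
  | .one => False
  | .mul s t => Occ i s ∨ Occ i t
  | .neg t => Occ i t

theorem C3_mul_one (a b : C3) : C3s.mul a b = C3.one ↔ a = C3.one ∧ b = C3.one := by
  cases a <;> cases b <;> simp [C3s]

theorem C3_neg_one (a : C3) : C3s.neg a = C3.one ↔ a = C3.one := by
  cases a <;> simp [C3s]

theorem eval_occ (i : ℕ) (t : Term) :
    t.eval C3s (fun j => if j = i then C3.c else C3.one) = C3.one ↔ ¬ Occ i t := by
  induction t with
  | var j =>
    by_cases h : j = i <;> simp [Term.eval, Occ, h]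
  | one => simp [Term.eval, Occ, C3s]
  | mul s t ih1 ih2 =>
    rw [Term.eval, C3_mul_one, ih1, ih2]
    simp [Occ]
  | neg t ih =>
    rw [Term.eval, C3_neg_one, ih]
    rfl

theorem occ_iff {p : Term × Term} (h : Sat C3s p) (i : ℕ) : Occ i p.1 ↔ Occ i p.2 := by
  have h1 := h (fun j => if j = i then C3.c else C3.one)
  have h2 := eval_occ i p.1
  have h3 := eval_occ i p.2
  rw [h1] at h2
  rw [h2] at h3
  exact not_iff_not.1 h3

/-! ### The main theorem -/

section main

variable {M : Type u} (A : Alg M) (hA : ∀ p ∈ basis, Sat A p)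

/-- A valuation with prescribed values of `x, y, z`. -/
def val3 (a b c : M) : ℕ → M
  | 0 => a
  | 1 => b
  | _ => c

/-- An algebra satisfying the basis. -/
@[reducible] def toIB : IB M where
  mul := A.mul
  one := A.one
  mul_assoc a b c := (hA (mul x (mul y z), mul (mul x y) z) (by simp [basis]) (val3 a b c)).symm
  mul_comm a b := hA (mul x y, mul y x) (by simp [basis]) (val3 a b b)
  mul_one a := hA (mul x one, x) (by simp [basis]) (val3 a a a)
  one_mul a := (hA (mul x y, mul y x) (by simp [basis]) (val3 A.one a a)).trans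
    (hA (mul x one, x) (by simp [basis]) (val3 a a a))
  ng := A.neg
  idem a := hA (mul x x, x) (by simp [basis]) (val3 a a a)
  ng_ng a := hA (neg (neg x), x) (by simp [basis]) (val3 a a a)
  ng_one := hA (neg one, one) (by simp [basis]) (val3 A.one A.one A.one)
  bot_mul a b := hA (bot (mul x y), mul (bot x) (bot y)) (by simp [basis]) (val3 a b b)
  mul_top a := hA (mul x (top x), x) (by simp [basis]) (val3 a a a)
  distr a b c := hA (mul (mul x u) (join (mul y u) (mul z u)),
     join (mul (mul x u) (mul y u)) (mul (mul x u) (mul z u))) (by simp [basis]) (val3 a b c)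
  ext_law a b := hA (neg (mul (neg x) w), mul (mul x w) (neg (mul (bot x) w)))
    (by simp [basis]) (val3 a b b)

include hA in
/-- Every algebra satisfying the basis satisfies the identities of `C₃ˢ`. -/
theorem sat_of_basis {p : Term × Term} (hp : Sat C3s p) : Sat A p := by
  classical
  letI : IB M := toIB A hA
  intro v
  have emul : ∀ s t : Term, (mul s t).eval A v = s.eval A v * t.eval A v := fun _ _ => rfl
  have eneg : ∀ t : Term, (neg t).eval A v = IB.ng (t.eval A v) := fun _ => rfl
  have eone : (one : Term).eval A v = (1 : M) := rfl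
  -- the bottom element of the value of a term
  have b1 : ∀ t : Term, ∀ i, Occ i t →
      (t.eval A v * IB.ng (t.eval A v)) * (v i * IB.ng (v i)) = t.eval A v * IB.ng (t.eval A v) := by
    intro t i
    induction t with
    | var j =>
      rintro (h : j = i)
      subst h
      exact IB.idem _
    | one => exact fun h => h.elim
    | mul s t ih1 ih2 =>
      rw [emul, IB.bot_mul]
      rintro (h | h)
      · have h3 := ih1 h
        calc _ = ((s.eval A v * IB.ng (s.eval A v)) * (v i * IB.ng (v i))) *
              (t.eval A v * IB.ng (t.eval A v)) := by ac_rfl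
          _ = _ := by rw [h3]
      · rw [mul_assoc, ih2 h]
    | neg t ih =>
      rw [eneg, IB.bot_ng]
      exact ih
  have b2 : ∀ t : Term, ∀ e : M, (∀ i, Occ i t → e * (v i * IB.ng (v i)) = e) →
      e * (t.eval A v * IB.ng (t.eval A v)) = e := by
    intro t e
    induction t with
    | var j => exact fun h => h j rfl
    | one =>
      intro _
      rw [eone, IB.ng_one, mul_one, mul_one]
    | mul s t ih1 ih2 =>
      intro h
      rw [emul, IB.bot_mul, ← mul_assoc, ih1 fun i hi => h i (Or.inl hi),
        ih2 fun i hi => h i (Or.inr hi)]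
    | neg t ih =>
      rw [eneg, IB.bot_ng]
      exact ih
  have hocc := occ_iff hp
  have hbot : p.1.eval A v * IB.ng (p.1.eval A v) = p.2.eval A v * IB.ng (p.2.eval A v) := by
    have c1 := b2 p.2 _ fun i hi => b1 p.1 i ((hocc i).2 hi)
    have c2 := b2 p.1 _ fun i hi => b1 p.2 i ((hocc i).1 hi)
    rw [← c1, mul_comm, c2]
  by_contra hne
  obtain ⟨e, he1⟩ : ∃ e, e = p.1.eval A v * IB.ng (p.1.eval A v) := ⟨_, rfl⟩
  have he : e * IB.ng e = e := by rw [he1]; exact IB.bot_bot _
  obtain ⟨χ, h1, h2, h3⟩ := IB.exists_hom he he1.symm (hbot.symm.trans he1.symm) hne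
  obtain ⟨v', hv'⟩ : ∃ v' : ℕ → C3, v' = fun i => if Occ i p.1 then IB.Phi χ e (v i) else C3.one :=
    ⟨_, rfl⟩
  have key : ∀ r : Term, (∀ i, Occ i r → Occ i p.1) →
      (r.eval A v * IB.ng (r.eval A v)) * e = e ∧ IB.Phi χ e (r.eval A v) = r.eval C3s v' := by
    intro r
    induction r with
    | var j =>
      intro h
      have hj := h j rfl
      refine ⟨?_, ?_⟩
      · change (v j * IB.ng (v j)) * e = e
        rw [mul_comm, he1]
        exact b1 p.1 j hj
      · change IB.Phi χ e (v j) = v' j
        rw [hv']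
        simp [hj]
    | one =>
      intro _
      refine ⟨?_, IB.Phi_one χ he h1 h2⟩
      rw [eone, IB.ng_one, mul_one, one_mul]
    | mul s t ih1 ih2 =>
      intro h
      obtain ⟨d1, d2⟩ := ih1 fun i hi => h i (Or.inl hi)
      obtain ⟨d3, d4⟩ := ih2 fun i hi => h i (Or.inr hi)
      refine ⟨?_, ?_⟩
      · rw [emul]; exact IB.low_mul d1 d3
      · rw [emul, IB.Phi_mul χ he h1 d1 d3, d2, d4]
        rfl
    | neg t ih =>
      intro h
      obtain ⟨d1, d2⟩ := ih h
      refine ⟨?_, ?_⟩
      · rw [eneg]; exact IB.low_ng d1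
      · rw [eneg, IB.Phi_ng χ he h1 h2 d1, d2]
        rfl
  have k1 := (key p.1 fun i hi => hi).2
  have k2 := (key p.2 fun i hi => (hocc i).2 hi).2
  have k3 := hp v'
  have k4 := IB.Phi_fib χ he h1 h2 he1.symm
  have k5 := IB.Phi_fib χ he h1 h2 (hbot.symm.trans he1.symm)
  apply h3
  rw [← k4, ← k5, k1, k2, k3]

end main

/-- `C₃ˢ` satisfies the identities of the basis. -/
theorem C3s_sat : ∀ q ∈ basis, Sat C3s q := by
  intro q hq v
  simp only [basis, List.mem_cons, List.not_mem_nil, or_false] at hq
  rcases hq with rfl | rfl | rfl | rfl | rfl | rfl | rfl | rfl | rfl | rfl <;>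
    simp only [Term.eval, bot, top, join, x, y, z, u, w] <;>
    generalize v 0 = a <;> (try generalize v 1 = b) <;> (try generalize v 2 = d) <;>
    cases a <;> (try cases b) <;> (try cases d) <;> rfl

/-- The copy of an algebra in a higher universe. -/
def up {M : Type} (A : Alg M) : Alg (ULift.{u} M) where
  mul a b := ⟨A.mul a.down b.down⟩
  neg a := ⟨A.neg a.down⟩
  one := ⟨A.one⟩

theorem eval_up {M : Type} (A : Alg M) (v : ℕ → ULift.{u} M) (t : Term) :
    (t.eval (up A) v).down = t.eval A (fun i => (v i).down) := by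
  induction t with
  | var i => rfl
  | one => rfl
  | mul s t ih1 ih2 =>
    change A.mul (s.eval (up A) v).down (t.eval (up A) v).down = _
    rw [ih1, ih2]; rfl
  | neg t ih =>
    change A.neg (t.eval (up A) v).down = _
    rw [ih]; rfl

theorem sat_up {M : Type} (A : Alg M) (p : Term × Term) : Sat (up.{u} A) p ↔ Sat A p := by
  constructor
  · intro h v
    have h1 := congrArg ULift.down (h fun i => ⟨v i⟩)
    rw [eval_up, eval_up] at h1
    exact h1
  · intro h v
    apply ULift.ext
    rw [eval_up, eval_up]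
    exact h _

/-- **Q1.** The list `basis` of ten identities is an equational basis of the variety generated by
`C₃ˢ`: an identity holds in `C₃ˢ` if and only if it holds in every algebra of type `(2, 1, 0)`
which satisfies the ten identities. -/
theorem result (p : Term × Term) :
    Sat C3s p ↔ ∀ (M : Type u) (A : Alg M), (∀ q ∈ basis, Sat A q) → Sat A p := by
  constructor
  · intro hp M A hA
    exact sat_of_basis A hA hp
  · intro h
    exact (sat_up C3s p).1 (h _ (up C3s) fun q hq => (sat_up C3s q).2 (C3s_sat q hq))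

end Pool.Agent.Results.MP_7f507d_al.FiniteBasis
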